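import Mathlib

set_option autoImplicit false

namespace Pool.Agent.Helper62.KU

open Finset

theorem card_restr {E e : ℕ} (he : e ≤ E) (b : Fin e → Bool) :
    (univ.filter fun f : Fin E → Bool => (fun i : Fin e => f (Fin.castLE he i)) = b).card =
      2 ^ (E - e) := by
  obtain ⟨d, rfl⟩ := Nat.exists_eq_add_of_le he
  have h1 : (univ.filter fun f : Fin (e + d) → Bool =>
      (fun i : Fin e => f (Fin.castLE he i)) = b) =
      (univ : Finset (Fin d → Bool)).image (fun g => Fin.append b g) := by
    ext f
    simp only [mem_filter, mem_univ, true_and, mem_image]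
    constructor
    · intro h
      refine ⟨fun i => f (Fin.natAdd e i), ?_⟩
      funext i
      refine Fin.addCases (fun i => ?_) (fun i => ?_) i
      · rw [Fin.append_left, ← h]; rfl
      · rw [Fin.append_right]
    · rintro ⟨g, rfl⟩
      funext i
      exact Fin.append_left b g i
  rw [h1, card_image_of_injective]
  · simp
  · intro g g' h
    funext i
    have := congrFun h (Fin.natAdd e i)
    simpa using this

theorem card_filter_equiv {α β : Type*} [Fintype α] [Fintype β] (Ψ : α ≃ β) (P : β → Prop)
    [DecidablePred P] : (univ.filter fun v => P (Ψ v)).card = (univ.filter P).card := by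
  rw [← card_map Ψ.symm.toEmbedding (s := univ.filter P)]
  congr 1
  ext v
  simp only [mem_filter, mem_univ, true_and, mem_map_equiv, Equiv.symm_symm]

/-- Lines over the field with `2 ^ E` elements, in binary notation. -/
theorem exists_lines (E k : ℕ) (hE : 0 < E) (hk : k ≤ E) :
    ∃ line : (Fin (E + E) → Bool) → (Fin k → Bool) → (Fin E → Bool),
      ∀ (e : ℕ) (he : e ≤ E),
        (∀ (a : Fin k → Bool) (b : Fin e → Bool),
          (univ.filter fun v => (fun i : Fin e => line v a (Fin.castLE he i)) = b).card =
            2 ^ (E + E - e)) ∧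
        (∀ a a' : Fin k → Bool, a ≠ a' → ∀ b b' : Fin e → Bool,
          (univ.filter fun v => (fun i : Fin e => line v a (Fin.castLE he i)) = b ∧
            (fun i : Fin e => line v a' (Fin.castLE he i)) = b').card ≤ 2 ^ (2 * (E - e))) := by
  classical
  -- the field
  obtain ⟨K, _, _, hKf⟩ : ∃ (K : Type) (_ : Field K) (_ : Fintype K), Fintype.card K = 2 ^ E := by
    have hK : Nat.card (GaloisField 2 E) = 2 ^ E := GaloisField.card 2 E (by omega)
    have : Finite (GaloisField 2 E) := Nat.finite_of_card_ne_zero (by rw [hK]; positivity)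
    let inst : Fintype (GaloisField 2 E) := Fintype.ofFinite _
    exact ⟨GaloisField 2 E, inferInstance, inst, by rw [← hK, Nat.card_eq_fintype_card]⟩
  obtain ⟨ψ⟩ : Nonempty ((Fin (E + E) → Bool) ≃ K × K) := by
    refine ⟨Fintype.equivOfCardEq ?_⟩
    rw [Fintype.card_prod, hKf]
    simp [pow_add]
  obtain ⟨φ⟩ : Nonempty (K ≃ (Fin E → Bool)) := by
    refine ⟨Fintype.equivOfCardEq ?_⟩
    rw [hKf]
    simp
  obtain ⟨ι⟩ : Nonempty ((Fin k → Bool) ↪ K) := by
    refine Function.Embedding.nonempty_of_card_le ?_
    rw [hKf]
    simp only [Fintype.card_pi, Fintype.card_bool, prod_const, card_univ, Fintype.card_fin]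
    exact Nat.pow_le_pow_right (by norm_num) hk
  refine ⟨fun v a => φ ((ψ v).1 + ι a * (ψ v).2), fun e he => ?_⟩
  set R : K → (Fin e → Bool) := fun x i => φ x (Fin.castLE he i) with hR
  have hfib : ∀ b : Fin e → Bool, (univ.filter fun x : K => R x = b).card = 2 ^ (E - e) := by
    intro b
    rw [← card_restr he b]
    exact card_filter_equiv φ (fun f : Fin E → Bool => (fun i : Fin e => f (Fin.castLE he i)) = b)
  constructor
  · intro a b
    let Ψ : K × K ≃ K × K :=
      { toFun := fun p => (p.1 + ι a * p.2, p.2)
        invFun := fun p => (p.1 - ι a * p.2, p.2)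
        left_inv := fun p => by simp
        right_inv := fun p => by simp }
    have h1 := card_filter_equiv (ψ.trans Ψ) (fun p : K × K => R p.1 = b)
    have h2 : (univ.filter fun p : K × K => R p.1 = b) =
        (univ.filter fun x : K => R x = b) ×ˢ univ := by
      ext p; simp
    rw [h2, card_product, hfib, card_univ, hKf, ← pow_add] at h1
    have h3 : E - e + E = E + E - e := by omega
    rw [h3] at h1
    exact h1
  · intro a a' haa b b'
    have hne : ι a - ι a' ≠ 0 := sub_ne_zero.mpr fun h => haa (ι.injective h)
    let Ψ : K × K ≃ K × K :=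
      { toFun := fun p => (p.1 + ι a * p.2, p.1 + ι a' * p.2)
        invFun := fun p => (p.1 - ι a * ((p.1 - p.2) / (ι a - ι a')), (p.1 - p.2) / (ι a - ι a'))
        left_inv := fun p => by
          have e1 : (p.1 + ι a * p.2 - (p.1 + ι a' * p.2)) / (ι a - ι a') = p.2 := by
            rw [div_eq_iff hne]; ring
          ext
          · simp only [e1]; ring
          · exact e1
        right_inv := fun p => by
          have e1 : (ι a - ι a') * ((p.1 - p.2) / (ι a - ι a')) = p.1 - p.2 := by
            rw [mul_div_cancel₀ _ hne]
          ext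
          · simp
          · show p.1 - ι a * ((p.1 - p.2) / (ι a - ι a')) +
              ι a' * ((p.1 - p.2) / (ι a - ι a')) = p.2
            linear_combination -e1 }
    have h1 := card_filter_equiv (ψ.trans Ψ) (fun p : K × K => R p.1 = b ∧ R p.2 = b')
    have h2 : (univ.filter fun p : K × K => R p.1 = b ∧ R p.2 = b') =
        (univ.filter fun x : K => R x = b) ×ˢ (univ.filter fun x : K => R x = b') := by
      ext p; simp
    rw [h2, card_product, hfib, hfib, ← pow_add] at h1
    have h3 : E - e + (E - e) = 2 * (E - e) := by omega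
    rw [h3] at h1
    exact h1.le

end Pool.Agent.Helper62.KU
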