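import Mathlib

set_option autoImplicit false

namespace Pool.Agent.Helper62.KU

open Filter Topology

/-- Polynomially bounded sequences. -/
def PB (f : ℕ → ℕ) : Prop := ∃ A d : ℕ, ∀ m, f m ≤ A * (m + 1) ^ d

theorem PB.const (c : ℕ) : PB fun _ => c := ⟨c, 0, fun m => by simp⟩

theorem PB.id : PB fun m => m := ⟨1, 1, fun m => by simp⟩

theorem PB.add {f g : ℕ → ℕ} (hf : PB f) (hg : PB g) : PB fun m => f m + g m := by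
  obtain ⟨A, d, h1⟩ := hf
  obtain ⟨B, e, h2⟩ := hg
  refine ⟨A + B, max d e, fun m => ?_⟩
  have h3 : (m + 1) ^ d ≤ (m + 1) ^ max d e := Nat.pow_le_pow_right (by omega) (le_max_left _ _)
  have h4 : (m + 1) ^ e ≤ (m + 1) ^ max d e := Nat.pow_le_pow_right (by omega) (le_max_right _ _)
  rw [add_mul]
  exact Nat.add_le_add ((h1 m).trans (Nat.mul_le_mul_left _ h3))
    ((h2 m).trans (Nat.mul_le_mul_left _ h4))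

theorem PB.mul {f g : ℕ → ℕ} (hf : PB f) (hg : PB g) : PB fun m => f m * g m := by
  obtain ⟨A, d, h1⟩ := hf
  obtain ⟨B, e, h2⟩ := hg
  refine ⟨A * B, d + e, fun m => ?_⟩
  calc f m * g m ≤ (A * (m + 1) ^ d) * (B * (m + 1) ^ e) := Nat.mul_le_mul (h1 m) (h2 m)
    _ = A * B * (m + 1) ^ (d + e) := by rw [pow_add]; ring

theorem PB.exists_le {f : ℕ → ℕ} (hf : PB f) : ∃ m, f m ≤ 2 ^ m := by
  obtain ⟨A, d, h1⟩ := hf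
  have h2 := tendsto_pow_const_div_const_pow_of_one_lt d (r := (2 : ℝ)) (by norm_num)
  have h3 : ∀ᶠ n : ℕ in atTop, (n : ℝ) ^ d / 2 ^ n < 1 / (2 * ((A : ℝ) + 1)) :=
    h2.eventually_lt_const (by positivity)
  obtain ⟨n, hn⟩ := (h3.and (eventually_ge_atTop 1)).exists
  obtain ⟨m, rfl⟩ : ∃ m, n = m + 1 := ⟨n - 1, by omega⟩
  refine ⟨m, (h1 m).trans ?_⟩
  have h4 := hn.1
  rw [div_lt_div_iff₀ (by positivity) (by positivity), one_mul, pow_succ] at h4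
  have h5 : (A : ℝ) * ((m : ℝ) + 1) ^ d ≤ 2 ^ m := by
    have h6 : 0 ≤ ((m : ℝ) + 1) ^ d := by positivity
    push_cast at h4
    nlinarith
  exact_mod_cast h5

theorem le_two_pow (n : ℕ) : n ≤ 2 ^ n := Nat.lt_two_pow_self.le

/-- The numerical parameters of the lower bound. -/
theorem exists_params (c₁ D ρ q : ℕ) (hc : 1 ≤ c₁) : ∃ ℓ k E₀ w g κ₀ E n t κ Γ Gh u₁ B₂ N : ℕ,
    E = E₀ * 2 ^ ℓ ∧ n = E + E + k + ℓ ∧ t = c₁ * (ℓ + 1) ∧ κ = 2 ^ κ₀ ∧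
    Γ = 2 * t * κ ^ t ∧ Gh = Γ * t * 2 ^ g ∧ u₁ = c₁ * (E + E + 1) ∧
    B₂ = (D + 1) ^ (ρ * (k + (ℓ + 1))) ∧
    N = 1 + c₁ * (64 * (2 ^ (n + 1) + 2 ^ ℓ * 2 ^ (k + E)) ^ 2 +
      2 ^ ℓ * (n + 4 + 3 * 2 ^ (k + E))) ∧
    100 * (c₁ * k) ≤ 2 ^ ℓ ∧ 7 ≤ k ∧ k ≤ E₀ ∧ g ≤ k ∧
    800 * c₁ * 2 ^ g ≤ κ ∧
    16 * Γ * u₁ ≤ 2 ^ k ∧
    2 ^ 7 * (κ ^ t * (u₁ * w)) ≤ 2 ^ k ∧
    16 * Γ * 2 ^ k * B₂ ^ 2 * Gh ≤ 2 ^ E₀ ∧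
    2 ^ 12 * (w * (c₁ * 2 ^ ℓ)) ≤ 2 ^ E₀ ∧
    2 * κ ^ t ≤ 2 ^ E ∧
    n + 4 ≤ 2 ^ k ∧
    2 ^ 12 * w ≤ 2 ^ g ∧
    8 * (w + 6) ≤ 2 ^ (k - 7) ∧
    q * (N * (N + 1)) ≤ 2 ^ w ∧
    N * (N * D + 1) ^ D + 1 ≤ 2 ^ w := by
  -- constants
  obtain ⟨d₀, hd₀⟩ : ∃ d₀, D + 1 ≤ 2 ^ d₀ := ⟨_, le_two_pow _⟩
  obtain ⟨a, ha⟩ : ∃ a, c₁ ≤ 2 ^ a := ⟨_, le_two_pow _⟩
  obtain ⟨l₀, hl₀⟩ : ∃ l₀, 100 * c₁ ≤ 2 ^ l₀ := ⟨_, le_two_pow _⟩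
  obtain ⟨M, hM⟩ : ∃ M, M = 4 * d₀ * ρ + 4 := ⟨_, rfl⟩
  obtain ⟨K₀, hK₀⟩ : ∃ K₀, K₀ = 2 ^ (M + 3) + 12 + a := ⟨_, rfl⟩
  obtain ⟨C, hC⟩ : ∃ C, (q + 2 * K₀ + 1) + (K₀ + (K₀ + d₀) * D + 1) ≤ 2 ^ C := ⟨_, le_two_pow _⟩
  -- the main choice
  obtain ⟨m, hm⟩ := PB.exists_le (f := fun m =>
    40 + 3 * (c₁ * (l₀ + m + 1)) + 2 * ((10 + a + (2 * (l₀ + m) + C + 12)) * (c₁ * (l₀ + m + 1))) +
      a + M + 7 * (l₀ + m) + 3 * C) (by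
    have hℓ : PB fun m => l₀ + m := (PB.const l₀).add PB.id
    have ht : PB fun m => c₁ * (l₀ + m + 1) := (PB.const c₁).mul (hℓ.add (PB.const 1))
    exact ((((((PB.const 40).add ((PB.const 3).mul ht)).add ((PB.const 2).mul
      (((PB.const (10 + a)).add ((((PB.const 2).mul hℓ).add (PB.const C)).add
        (PB.const 12))).mul ht))).add (PB.const a)).add (PB.const M)).add
        ((PB.const 7).mul hℓ)).add ((PB.const 3).mul (PB.const C)))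
  obtain ⟨ℓ, hℓ⟩ : ∃ ℓ, ℓ = l₀ + m := ⟨_, rfl⟩
  rw [← hℓ] at hm
  obtain ⟨k, hk⟩ : ∃ k, k = 2 ^ m := ⟨_, rfl⟩
  rw [← hk] at hm
  obtain ⟨g, hg⟩ : ∃ g, g = 2 * ℓ + C + 12 := ⟨_, rfl⟩
  obtain ⟨κ₀, hκ₀⟩ : ∃ κ₀, κ₀ = 10 + a + g := ⟨_, rfl⟩
  obtain ⟨t, ht⟩ : ∃ t, t = c₁ * (ℓ + 1) := ⟨_, rfl⟩
  rw [← hg, ← hκ₀, ← ht] at hm
  obtain ⟨T, hT⟩ : ∃ T, T = κ₀ * t := ⟨_, rfl⟩
  rw [← hT] at hm
  obtain ⟨E₀, hE₀⟩ : ∃ E₀, E₀ = M * k := ⟨_, rfl⟩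
  obtain ⟨E, hE⟩ : ∃ E, E = E₀ * 2 ^ ℓ := ⟨_, rfl⟩
  obtain ⟨n, hn⟩ : ∃ n, n = E + E + k + ℓ := ⟨_, rfl⟩
  obtain ⟨w, hw⟩ : ∃ w, w = 2 ^ (2 * ℓ + C) := ⟨_, rfl⟩
  obtain ⟨u₁, hu₁⟩ : ∃ u₁, u₁ = c₁ * (E + E + 1) := ⟨_, rfl⟩
  obtain ⟨N, hN⟩ : ∃ N, N = 1 + c₁ * (64 * (2 ^ (n + 1) + 2 ^ ℓ * 2 ^ (k + E)) ^ 2 +
      2 ^ ℓ * (n + 4 + 3 * 2 ^ (k + E))) := ⟨_, rfl⟩
  -- basic estimates
  have hM1 : 1 ≤ M := by omega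
  have hkE₀ : k ≤ E₀ := by rw [hE₀]; exact Nat.le_mul_of_pos_left _ hM1
  have h2ℓ : 1 ≤ 2 ^ ℓ := Nat.one_le_pow _ _ (by norm_num)
  have hk1 : 1 ≤ k := by rw [hk]; exact Nat.one_le_pow _ _ (by norm_num)
  have hE₀E : E₀ ≤ E := by rw [hE]; exact Nat.le_mul_of_pos_right _ h2ℓ
  have hℓE : ℓ ≤ E := by
    rw [hE]
    exact (le_two_pow ℓ).trans (Nat.le_mul_of_pos_left _ (by omega))
  have hEub : E ≤ 2 ^ (M + 2 * ℓ) := by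
    have h1 : k ≤ 2 ^ ℓ := by rw [hk]; exact Nat.pow_le_pow_right (by norm_num) (by omega)
    calc E = M * k * 2 ^ ℓ := by rw [hE, hE₀]
      _ ≤ 2 ^ M * 2 ^ ℓ * 2 ^ ℓ := Nat.mul_le_mul_right _ (Nat.mul_le_mul (le_two_pow M) h1)
      _ = 2 ^ (M + 2 * ℓ) := by rw [← pow_add, ← pow_add]; congr 1; ring
  have hn4 : n ≤ 4 * E := by omega
  have hnub : n ≤ 2 ^ (M + 2 * ℓ + 2) := by
    have : 2 ^ (M + 2 * ℓ + 2) = 4 * 2 ^ (M + 2 * ℓ) := by rw [pow_add]; ring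
    omega
  have hnE : ℓ + (k + E) ≤ n := by omega
  have hu₁ub : u₁ ≤ 2 ^ (a + (M + 2 * ℓ + 2)) := by
    rw [hu₁, pow_add 2 a]
    refine Nat.mul_le_mul ha ?_
    have : 2 ^ (M + 2 * ℓ + 2) = 4 * 2 ^ (M + 2 * ℓ) := by rw [pow_add]; ring
    omega
  have hκt : (2 ^ κ₀) ^ t = 2 ^ T := by rw [← pow_mul, hT]
  have hΓ : 2 * t * (2 ^ κ₀) ^ t ≤ 2 ^ (1 + t + T) := by
    rw [hκt, pow_add, pow_add, pow_one]
    exact Nat.mul_le_mul_right _ (Nat.mul_le_mul_left _ (le_two_pow t))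
  have mono : ∀ {x y : ℕ}, x ≤ y → 2 ^ x ≤ 2 ^ y := fun h => Nat.pow_le_pow_right (by norm_num) h
  -- the bound for `N`
  have hNub : N ≤ 2 ^ (2 * n + 12 + a) := by
    have h1 : 2 ^ ℓ * 2 ^ (k + E) ≤ 2 ^ n := by rw [← pow_add]; exact mono hnE
    have h2 : 2 ^ (n + 1) + 2 ^ ℓ * 2 ^ (k + E) ≤ 2 ^ (n + 2) := by
      have e1 : 2 ^ (n + 1) = 2 * 2 ^ n := by rw [pow_succ]; ring
      have e2 : 2 ^ (n + 2) = 4 * 2 ^ n := by rw [pow_add]; ring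
      omega
    have h3 : 64 * (2 ^ (n + 1) + 2 ^ ℓ * 2 ^ (k + E)) ^ 2 ≤ 2 ^ (2 * n + 10) := by
      calc 64 * (2 ^ (n + 1) + 2 ^ ℓ * 2 ^ (k + E)) ^ 2 ≤ 64 * (2 ^ (n + 2)) ^ 2 :=
            Nat.mul_le_mul_left _ (Nat.pow_le_pow_left h2 _)
        _ = 2 ^ (2 * n + 10) := by
            rw [← pow_mul, show (64 : ℕ) = 2 ^ 6 by norm_num, ← pow_add]; congr 1; ring
    have h4 : 2 ^ ℓ * (n + 4 + 3 * 2 ^ (k + E)) ≤ 2 ^ (2 * n + 3) := by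
      have e1 : n + 4 ≤ 4 * 2 ^ n := by
        have := le_two_pow n
        have : 1 ≤ 2 ^ n := Nat.one_le_pow _ _ (by norm_num)
        rcases Nat.lt_or_ge n 2 with h | h
        · omega
        · have h5 : 4 ≤ 2 ^ n := by
            calc 4 = 2 ^ 2 := by norm_num
              _ ≤ 2 ^ n := mono h
          omega
      have e2 : 2 ^ ℓ ≤ 2 ^ n := mono (by omega)
      calc 2 ^ ℓ * (n + 4 + 3 * 2 ^ (k + E)) = 2 ^ ℓ * (n + 4) + 3 * (2 ^ ℓ * 2 ^ (k + E)) := by ring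
        _ ≤ 2 ^ n * (4 * 2 ^ n) + 3 * 2 ^ n :=
            Nat.add_le_add (Nat.mul_le_mul e2 e1) (Nat.mul_le_mul_left _ h1)
        _ ≤ 2 ^ n * (4 * 2 ^ n) + 3 * (2 ^ n * 2 ^ n) := by
            refine Nat.add_le_add_left (Nat.mul_le_mul_left _ ?_) _
            exact Nat.le_mul_of_pos_right _ (by positivity)
        _ ≤ 2 ^ (2 * n + 3) := by
            have : 2 ^ (2 * n + 3) = 8 * (2 ^ n * 2 ^ n) := by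
              rw [pow_add, two_mul, pow_add]; ring
            rw [this]
            have h6 : 2 ^ n * (4 * 2 ^ n) = 4 * (2 ^ n * 2 ^ n) := by ring
            omega
    have h5 : 64 * (2 ^ (n + 1) + 2 ^ ℓ * 2 ^ (k + E)) ^ 2 +
      2 ^ ℓ * (n + 4 + 3 * 2 ^ (k + E)) ≤ 2 ^ (2 * n + 11) := by
      have e1 : 2 ^ (2 * n + 11) = 2 * 2 ^ (2 * n + 10) := by rw [pow_succ]; ring
      have e2 : 2 ^ (2 * n + 3) ≤ 2 ^ (2 * n + 10) := mono (by omega)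
      omega
    have h6 : c₁ * (64 * (2 ^ (n + 1) + 2 ^ ℓ * 2 ^ (k + E)) ^ 2 +
      2 ^ ℓ * (n + 4 + 3 * 2 ^ (k + E))) ≤ 2 ^ (2 * n + 11 + a) := by
      rw [pow_add _ _ a, mul_comm]
      exact Nat.mul_le_mul h5 ha
    have h7 : 2 ^ (2 * n + 12 + a) = 2 * 2 ^ (2 * n + 11 + a) := by
      rw [show 2 * n + 12 + a = (2 * n + 11 + a) + 1 by ring, pow_succ]; ring
    have h8 : 1 ≤ 2 ^ (2 * n + 11 + a) := Nat.one_le_pow _ _ (by norm_num)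
    omega
  obtain ⟨L, hL⟩ : ∃ L, L = 2 * n + 12 + a := ⟨_, rfl⟩
  rw [← hL] at hNub
  have hLub : L ≤ 2 ^ (2 * ℓ) * K₀ := by
    have e1 : 2 ^ (M + 2 * ℓ + 2) = 2 ^ (2 * ℓ) * 2 ^ (M + 2) := by rw [← pow_add]; congr 1; ring
    have e2 : 1 ≤ 2 ^ (2 * ℓ) := Nat.one_le_pow _ _ (by norm_num)
    have e3 : 12 + a ≤ 2 ^ (2 * ℓ) * (12 + a) := Nat.le_mul_of_pos_left _ e2
    have e4 : 2 ^ (2 * ℓ) * K₀ = 2 * (2 ^ (2 * ℓ) * 2 ^ (M + 2)) + 2 ^ (2 * ℓ) * (12 + a) := by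
      rw [hK₀, pow_succ 2 (M + 2)]; ring
    omega
  have e2 : 1 ≤ 2 ^ (2 * ℓ) := Nat.one_le_pow _ _ (by norm_num)
  have hwub : 2 ^ (2 * ℓ) * ((q + 2 * K₀ + 1) + (K₀ + (K₀ + d₀) * D + 1)) ≤ w := by
    rw [hw, pow_add]
    exact Nat.mul_le_mul_left _ hC
  have hwq : q + 2 * L + 1 ≤ w := by
    refine le_trans ?_ hwub
    have h1 : q + 1 ≤ 2 ^ (2 * ℓ) * (q + 1) := Nat.le_mul_of_pos_left _ e2
    have h2 : 2 ^ (2 * ℓ) * ((q + 2 * K₀ + 1) + (K₀ + (K₀ + d₀) * D + 1)) =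
      2 ^ (2 * ℓ) * (q + 1) + 2 * (2 ^ (2 * ℓ) * K₀) +
        2 ^ (2 * ℓ) * (K₀ + (K₀ + d₀) * D + 1) := by ring
    omega
  have hwD : L + (L + d₀) * D + 1 ≤ w := by
    refine le_trans ?_ hwub
    have h0 : L + d₀ ≤ 2 ^ (2 * ℓ) * (K₀ + d₀) := by
      rw [mul_add]
      exact Nat.add_le_add hLub (Nat.le_mul_of_pos_left _ e2)
    have h1 : (L + d₀) * D ≤ 2 ^ (2 * ℓ) * (K₀ + d₀) * D := Nat.mul_le_mul_right _ h0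
    have h2 : 2 ^ (2 * ℓ) * ((q + 2 * K₀ + 1) + (K₀ + (K₀ + d₀) * D + 1)) =
      2 ^ (2 * ℓ) * (q + 2 * K₀ + 1) + 2 ^ (2 * ℓ) * K₀ +
        2 ^ (2 * ℓ) * (K₀ + d₀) * D + 2 ^ (2 * ℓ) := by ring
    omega
  refine ⟨ℓ, k, E₀, w, g, κ₀, E, n, t, 2 ^ κ₀, 2 * t * (2 ^ κ₀) ^ t,
    2 * t * (2 ^ κ₀) ^ t * t * 2 ^ g, u₁, (D + 1) ^ (ρ * (k + (ℓ + 1))), N, hE, hn, ht, rfl, rfl,
    rfl, hu₁, rfl, hN, ?_, by omega, hkE₀, by omega, ?_, ?_, ?_, ?_, ?_, ?_, ?_, ?_, ?_, ?_, ?_⟩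
  · -- `100 c₁ k ≤ 2 ^ ℓ`
    rw [← mul_assoc, hℓ, pow_add, hk]
    exact Nat.mul_le_mul_right _ hl₀
  · -- `800 c₁ 2 ^ g ≤ κ`
    rw [hκ₀, pow_add, pow_add]
    refine Nat.mul_le_mul_right _ (Nat.mul_le_mul (by norm_num) ha)
  · -- `16 Γ u₁ ≤ 2 ^ k`
    calc 16 * (2 * t * (2 ^ κ₀) ^ t) * u₁ ≤ 2 ^ 4 * 2 ^ (1 + t + T) * 2 ^ (a + (M + 2 * ℓ + 2)) :=
          Nat.mul_le_mul (Nat.mul_le_mul (by norm_num) hΓ) hu₁ub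
      _ = 2 ^ (4 + (1 + t + T) + (a + (M + 2 * ℓ + 2))) := by
          rw [pow_add 2 (4 + (1 + t + T)), pow_add 2 4]
      _ ≤ 2 ^ k := mono (by omega)
  · calc 2 ^ 7 * ((2 ^ κ₀) ^ t * (u₁ * w)) ≤
          2 ^ 7 * (2 ^ T * (2 ^ (a + (M + 2 * ℓ + 2)) * 2 ^ (2 * ℓ + C))) := by
          rw [hκt, hw]
          exact Nat.mul_le_mul_left _ (Nat.mul_le_mul_left _ (Nat.mul_le_mul_right _ hu₁ub))
      _ = 2 ^ (7 + (T + ((a + (M + 2 * ℓ + 2)) + (2 * ℓ + C)))) := by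
          rw [← pow_add, ← pow_add, ← pow_add]
      _ ≤ 2 ^ k := mono (by omega)
  · -- the condition with `B₂`
    have hB : ((D + 1) ^ (ρ * (k + (ℓ + 1)))) ^ 2 ≤ 2 ^ (4 * d₀ * ρ * k) := by
      calc ((D + 1) ^ (ρ * (k + (ℓ + 1)))) ^ 2 ≤ ((2 ^ d₀) ^ (ρ * (k + (ℓ + 1)))) ^ 2 :=
            Nat.pow_le_pow_left (Nat.pow_le_pow_left hd₀ _) _
        _ = 2 ^ (d₀ * (ρ * (k + (ℓ + 1))) * 2) := by
          rw [← pow_mul, ← pow_mul]; ring_nf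
        _ ≤ 2 ^ (4 * d₀ * ρ * k) := by
            apply mono
            have h1 : k + (ℓ + 1) ≤ 2 * k := by omega
            calc d₀ * (ρ * (k + (ℓ + 1))) * 2 ≤ d₀ * (ρ * (2 * k)) * 2 :=
                  Nat.mul_le_mul_right _ (Nat.mul_le_mul_left _ (Nat.mul_le_mul_left _ h1))
              _ = 4 * d₀ * ρ * k := by ring
    have hGh : 2 * t * (2 ^ κ₀) ^ t * t * 2 ^ g ≤ 2 ^ ((1 + t + T) + t + g) := by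
      rw [pow_add _ _ g, pow_add _ _ t]
      exact Nat.mul_le_mul_right _ (Nat.mul_le_mul hΓ (le_two_pow t))
    calc 16 * (2 * t * (2 ^ κ₀) ^ t) * 2 ^ k * ((D + 1) ^ (ρ * (k + (ℓ + 1)))) ^ 2 *
          (2 * t * (2 ^ κ₀) ^ t * t * 2 ^ g)
        ≤ 2 ^ 4 * 2 ^ (1 + t + T) * 2 ^ k * 2 ^ (4 * d₀ * ρ * k) * 2 ^ ((1 + t + T) + t + g) :=
          Nat.mul_le_mul (Nat.mul_le_mul (Nat.mul_le_mul_right _
            (Nat.mul_le_mul (by norm_num) hΓ)) hB) hGh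
      _ = 2 ^ (4 + (1 + t + T) + k + 4 * d₀ * ρ * k + ((1 + t + T) + t + g)) := by
          rw [pow_add 2 (4 + (1 + t + T) + k + 4 * d₀ * ρ * k), pow_add 2 (4 + (1 + t + T) + k),
            pow_add 2 (4 + (1 + t + T)), pow_add 2 4]
      _ ≤ 2 ^ E₀ := by
          apply mono
          rw [hE₀, hM, add_mul]
          have : 4 * d₀ * ρ * k = 4 * d₀ * ρ * k := rfl
          omega
  · calc 2 ^ 12 * (w * (c₁ * 2 ^ ℓ)) ≤ 2 ^ 12 * (2 ^ (2 * ℓ + C) * (2 ^ a * 2 ^ ℓ)) := by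
          rw [hw]
          exact Nat.mul_le_mul_left _ (Nat.mul_le_mul_left _ (Nat.mul_le_mul_right _ ha))
      _ = 2 ^ (12 + (2 * ℓ + C + (a + ℓ))) := by rw [← pow_add, ← pow_add, ← pow_add]
      _ ≤ 2 ^ E₀ := mono (by omega)
  · calc 2 * (2 ^ κ₀) ^ t = 2 ^ (T + 1) := by rw [hκt, pow_succ]; ring
      _ ≤ 2 ^ E := mono (by omega)
  · have h1 : 2 ^ (M + 2 * ℓ + 3) = 2 * 2 ^ (M + 2 * ℓ + 2) := by rw [pow_succ]; ring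
    have h2 : 4 ≤ 2 ^ (M + 2 * ℓ + 2) := by
      calc 4 = 2 ^ 2 := by norm_num
        _ ≤ 2 ^ (M + 2 * ℓ + 2) := mono (by omega)
    have h3 : 2 ^ (M + 2 * ℓ + 3) ≤ 2 ^ k := mono (by omega)
    omega
  · rw [hw, hg, ← pow_add]
    exact mono (by omega)
  · have h1 : 2 ^ (2 * ℓ + C + 6) = 64 * 2 ^ (2 * ℓ + C) := by rw [pow_add]; ring
    have h2 : 1 ≤ 2 ^ (2 * ℓ + C) := Nat.one_le_pow _ _ (by norm_num)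
    have h3 : 2 ^ (2 * ℓ + C + 6) ≤ 2 ^ (k - 7) := mono (by omega)
    rw [hw]
    omega
  · calc q * (N * (N + 1)) ≤ 2 ^ q * (2 ^ L * 2 ^ (L + 1)) := by
          refine Nat.mul_le_mul (le_two_pow q) (Nat.mul_le_mul hNub ?_)
          have : 1 ≤ 2 ^ L := Nat.one_le_pow _ _ (by norm_num)
          rw [pow_succ]
          omega
      _ = 2 ^ (q + (L + (L + 1))) := by rw [← pow_add, ← pow_add]
      _ ≤ 2 ^ w := mono (by omega)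
  · have h1 : N * D + 1 ≤ 2 ^ (L + d₀) := by
      have h2 : 1 ≤ 2 ^ L := Nat.one_le_pow _ _ (by norm_num)
      calc N * D + 1 ≤ 2 ^ L * D + 2 ^ L := Nat.add_le_add (Nat.mul_le_mul_right _ hNub) h2
        _ = 2 ^ L * (D + 1) := by ring
        _ ≤ 2 ^ L * 2 ^ d₀ := Nat.mul_le_mul_left _ hd₀
        _ = 2 ^ (L + d₀) := by rw [pow_add]
    calc N * (N * D + 1) ^ D + 1 ≤ 2 ^ L * (2 ^ (L + d₀)) ^ D + 1 :=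
          Nat.add_le_add_right (Nat.mul_le_mul hNub (Nat.pow_le_pow_left h1 _)) _
      _ = 2 ^ (L + (L + d₀) * D) + 1 := by rw [← pow_mul, ← pow_add]
      _ ≤ 2 ^ (L + (L + d₀) * D + 1) := by
          have : 1 ≤ 2 ^ (L + (L + d₀) * D) := Nat.one_le_pow _ _ (by norm_num)
          rw [pow_succ]
          omega
      _ ≤ 2 ^ w := mono hwD

end Pool.Agent.Helper62.KU
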